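import Pool.Agent.H30.LVC.Conv

/-!
# A local biholomorphic map preserving a linear VMRT need not extend

There is a threefold `X` of Picard number one in projective 6-space (a smooth intersection of three
quadrics, a double cover of an intersection of two quadrics in projective 5-space), a minimal
component `K` of conics on `X` whose variety of minimal rational tangents is linear and not full,
and a biholomorphic map between connected open subsets of `X` which preserves the varieties of
minimal rational tangents and is not the restriction of a biregular automorphism of `X`.
-/

open MvPolynomial LVC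

namespace Pool.Agent.Results.MP_bacf0d_ag.LinearVmrtCounterexample

theorem result : ∃ (m : ℕ) (F : Fin m → MvPolynomial (Fin 7) ℂ) (K : Set (Fin 3 → Fin 7 → ℂ))
    (U U' : Set (Fin 7 → ℂ)) (φ ψ : (Fin 7 → ℂ) → Fin 7 → ℂ),
    IsMfd F 3 ∧ PicOne F ∧ MinComp F 2 K ∧ LinearVmrt F K ∧ NotFull F K ∧ IsBihol F U U' φ ψ ∧
      Preserves F K U φ ∧ ¬ Extends F U φ :=
  LVC.main

end Pool.Agent.Results.MP_bacf0d_ag.LinearVmrtCounterexample
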